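import Pool.Agent.H98.Bose2.Final

/-!
# MP_a755a8_mp: stability of the second kind for bosons with an attractive two-body and a
repulsive three-body interaction

For every external potential the set of all `β ∈ (0, 1]` for which stability of the second kind
holds for all admissible pairs `(V, W)` is the interval `(0, 1/3)`. For a fixed three-body potential
`V` the threshold is `3/4` if `V` is bounded below by a positive constant near the origin, and `1/3`
if `V` vanishes near the origin.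
-/

set_option autoImplicit false

namespace Pool.Agent.Results.MP_a755a8_mp.StabilityThresholds

open Pool.Agent.H50.Bose Pool.Agent.H98.Bose2

theorem result (U : (Fin 3 → ℝ) → ℝ) (hU : IsTrap U) :
    (∀ β : ℝ, 0 < β → β ≤ 1 →
      ((∀ (V : (Fin 3 → ℝ) → (Fin 3 → ℝ) → ℝ) (W : (Fin 3 → ℝ) → ℝ),
        IsThreeBody V → IsPair W → Stable β U V W) ↔ β < 1 / 3)) ∧
    ∀ V : (Fin 3 → ℝ) → (Fin 3 → ℝ) → ℝ, IsThreeBody V →
      (∀ W : (Fin 3 → ℝ) → ℝ, IsPair W → (¬ ∀ᵐ x, W x = 0) →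
        ∀ β : ℝ, 3 / 4 < β → β ≤ 1 → ¬ Stable β U V W) ∧
      (HasCore V → ∀ W : (Fin 3 → ℝ) → ℝ, IsPair W →
        (∀ β : ℝ, 0 < β → β < 3 / 4 → Stable β U V W) ∧
        ((¬ ∀ᵐ x, W x = 0) → ∃ w₁ w₂ : ℝ, 0 < w₁ ∧
          (∀ w, 0 ≤ w → w ≤ w₁ → Stable (3 / 4) U V (fun x => w * W x)) ∧
          ∀ w, w₂ ≤ w → ¬ Stable (3 / 4) U V (fun x => w * W x))) ∧
      (IsHollow V → ∀ β : ℝ, 0 < β → β ≤ 1 →
        ((∀ W : (Fin 3 → ℝ) → ℝ, IsPair W → Stable β U V W) ↔ β < 1 / 3)) :=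
  thresholds U hU

end Pool.Agent.Results.MP_a755a8_mp.StabilityThresholds
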